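import Pool.Agent.Helper82_UN.Defs

/-!
# Statements about block codes

A code is a sequence of symbols `(f n, c n, t n)`: the value `f n`, the label `c n` of the time `n`
and a bit `t n` of a tag.
-/

set_option autoImplicit false

namespace Pool.Agent.Helper82UN

open MeasureTheory Set

/-- the history of `y` before time `n`, newest symbol first -/
def hist {A : Type*} (y : ℕ → A) : ℕ → List A
  | 0 => []
  | n + 1 => y n :: hist y n

/-- Label functions with tags: there is a universally null set `P` of sequences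
`(label, bit of a tag)`, the label of time `n` is at most `n`, such that for every infinite set
`E` of times some member of `P` takes every label infinitely often on `E`. -/
def GrzStmt : Prop :=
  ∃ P : Set (ℕ → ℕ × Bool), UnivNull P ∧ (∀ p ∈ P, ∀ n, (p n).1 ≤ n) ∧
    ∀ E : Set ℕ, E.Infinite → ∃ p ∈ P, ∀ c, {n | n ∈ E ∧ (p n).1 = c}.Infinite

/-- Block codes: there is a universally null set `Y` of codes such that for every rule `H` (which
may know the history and the label of the present time) some code obeys, for every label `c`, the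
inequality `H (history) c ≤ value` at infinitely many times with label `c`. -/
def CodeStmt : Prop :=
  ∃ Y : Set (ℕ → ℕ × ℕ × Bool), UnivNull Y ∧
    ∀ H : List (ℕ × ℕ × Bool) → ℕ → ℕ, ∃ y ∈ Y, ∀ c,
      {n | (y n).2.1 = c ∧ H (hist y n) c ≤ (y n).1}.Infinite

/-- `CodeStmt` with the information that the label of time `n` is at most `n`. -/
def CodeStmtB : Prop :=
  ∃ Y : Set (ℕ → ℕ × ℕ × Bool), UnivNull Y ∧ (∀ y ∈ Y, ∀ n, (y n).2.1 ≤ n) ∧
    ∀ H : List (ℕ × ℕ × Bool) → ℕ → ℕ, ∃ y ∈ Y, ∀ c,
      {n | (y n).2.1 = c ∧ H (hist y n) c ≤ (y n).1}.Infinite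

/-- The form with the label of time `n` in the symbol of time `n - 1`. -/
def UniverseStmt : Prop :=
  ∃ X : Set (ℕ → ℕ × ℕ), UnivNull X ∧ (∀ u ∈ X, ∀ n, (u n).2 ≤ 2 * n + 3) ∧
    ∀ H : List (ℕ × ℕ) → ℕ, ∃ u ∈ X, ∀ L N, ∃ n ≥ N, 1 ≤ n ∧ (u (n - 1)).2 / 2 = L ∧
      H ((List.range n).map u) ≤ (u n).1

end Pool.Agent.Helper82UN
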