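import Pool.Agent.Helper82_UN.Rec
import Pool.Agent.Helper82_UN.Stmt

/-!
# Products of universally null sets, and the capture property of block codes
-/

set_option autoImplicit false

namespace Pool.Agent.Helper82UN

open MeasureTheory Set
open scoped ENNReal

/-- the points of positive measure of a finite measure form a countable set -/
theorem countable_atoms {A : Type*} [MeasurableSpace A] [MeasurableSingletonClass A]
    (m : Measure A) [IsFiniteMeasure m] : {a | m {a} ≠ 0}.Countable := by
  have h := Measure.countable_meas_pos_of_disjoint_iUnion (μ := m) (ι := A)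
    (As := fun a => {a}) (fun a => measurableSet_singleton a) (fun a b hab => by simpa using hab)
  refine h.mono fun a ha => ?_
  exact pos_iff_ne_zero.2 ha

theorem UnivNull.prod {A B : Type*} [MeasurableSpace A] [MeasurableSpace B]
    [MeasurableSingletonClass A] [MeasurableSingletonClass B] {S : Set A} {T : Set B}
    (hS : UnivNull S) (hT : UnivNull T) : UnivNull (S ×ˢ T) := by
  intro μ hμ hna
  set m : Measure A := μ.map Prod.fst with hm
  have hmf : IsFiniteMeasure m := inferInstance
  set C : Set A := {a | m {a} ≠ 0} with hC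
  have hCc : C.Countable := countable_atoms m
  have hCm : MeasurableSet C := hCc.measurableSet
  -- outside the atoms
  have h1 : m (S \ C) = 0 := by
    have hna2 : NullSingletonClass (m.restrict Cᶜ) := by
      refine ⟨fun a => ?_⟩
      rw [Measure.restrict_apply (measurableSet_singleton a)]
      by_cases ha : a ∈ C
      · convert measure_empty (μ := m)
        ext x
        simp only [mem_inter_iff, mem_singleton_iff, mem_compl_iff, mem_empty_iff_false,
          iff_false, not_and, not_not]
        rintro rfl
        exact ha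
      · refine measure_mono_null inter_subset_left ?_
        by_contra hne
        exact ha hne
    have h2 := hS (m.restrict Cᶜ) inferInstance hna2
    rw [Measure.restrict_apply' hCm.compl] at h2
    exact h2
  have h2 : μ ((S \ C) ×ˢ T) = 0 := by
    obtain ⟨N, hN1, hN2, hN3⟩ := exists_measurable_superset_of_null h1
    refine measure_mono_null (t := Prod.fst ⁻¹' N) ?_ ?_
    · rintro ⟨a, b⟩ ⟨ha, hb⟩
      exact hN1 ha
    · rw [hm, Measure.map_apply measurable_fst hN2] at hN3
      exact hN3
  -- above the atoms
  have h3 : ∀ a ∈ C, μ ({a} ×ˢ T) = 0 := by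
    intro a _
    set ν : Measure B := (μ.restrict ({a} ×ˢ univ)).map Prod.snd with hν
    have hm1 : MeasurableSet (({a} : Set A) ×ˢ (univ : Set B)) :=
      (measurableSet_singleton a).prod MeasurableSet.univ
    have hna3 : NullSingletonClass ν := by
      refine ⟨fun b => ?_⟩
      rw [hν, Measure.map_apply measurable_snd (measurableSet_singleton b),
        Measure.restrict_apply (measurable_snd (measurableSet_singleton b))]
      refine measure_mono_null (t := {(a, b)}) ?_ (measure_singleton _)
      rintro ⟨x, y⟩ ⟨hy, hx, -⟩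
      simp only [mem_preimage, mem_singleton_iff] at hx hy
      rw [hx, hy]
      rfl
    have h4 := hT ν inferInstance hna3
    obtain ⟨N, hN1, hN2, hN3⟩ := exists_measurable_superset_of_null h4
    rw [hν, Measure.map_apply measurable_snd hN2,
      Measure.restrict_apply (measurable_snd hN2)] at hN3
    refine measure_mono_null ?_ hN3
    rintro ⟨x, y⟩ ⟨hx, hy⟩
    exact ⟨hN1 hy, hx, mem_univ _⟩
  have h4 : μ (⋃ a ∈ C, {a} ×ˢ T) = 0 := (measure_biUnion_null_iff hCc).2 h3
  refine measure_mono_null ?_ (measure_union_null h2 h4)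
  rintro ⟨a, b⟩ ⟨ha, hb⟩
  by_cases haC : a ∈ C
  · right
    exact mem_biUnion haC ⟨rfl, hb⟩
  · left
    exact ⟨⟨ha, haC⟩, hb⟩

/-- preimages under measurable equivalences -/
theorem UnivNull.preimage_equiv {A B : Type*} [MeasurableSpace A] [MeasurableSpace B]
    [MeasurableSingletonClass A] [MeasurableSingletonClass B] {S : Set B}
    (hS : UnivNull S) (e : A ≃ᵐ B) : UnivNull (e ⁻¹' S) := by
  intro μ hμ hna
  have hna2 : NullSingletonClass (μ.map e) := by
    refine ⟨fun b => ?_⟩
    rw [e.map_apply]
    refine measure_mono_null (t := {e.symm b}) ?_ (measure_singleton _)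
    intro x hx
    have hx' : e x = b := hx
    rw [mem_singleton_iff, ← hx', e.symm_apply_apply]
  have h := hS (μ.map e) inferInstance hna2
  rwa [e.map_apply] at h

/-- images under measurable embeddings -/
theorem UnivNull.image_embedding {A B : Type*} [MeasurableSpace A] [MeasurableSpace B]
    [MeasurableSingletonClass A] [MeasurableSingletonClass B] {S : Set A}
    (hS : UnivNull S) {e : A → B} (he : MeasurableEmbedding e) : UnivNull (e '' S) := by
  intro μ hμ hna
  have hf : IsFiniteMeasure (μ.comap e) := by
    refine ⟨?_⟩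
    rw [he.comap_apply]
    exact measure_lt_top _ _
  have hna2 : NullSingletonClass (μ.comap e) := by
    refine ⟨fun a => ?_⟩
    rw [he.comap_apply, image_singleton]
    exact measure_singleton _
  have h := hS (μ.comap e) hf hna2
  rwa [he.comap_apply] at h

/-- a sequence of pairs is a pair of sequences -/
def seqEquiv : (ℕ → ℕ × ℕ × Bool) ≃ᵐ (ℕ → ℕ) × (ℕ → ℕ × Bool) where
  toFun y := (fun n => (y n).1, fun n => (y n).2)
  invFun q := fun n => (q.1 n, q.2 n)
  left_inv _ := rfl
  right_inv _ := rfl
  measurable_toFun := by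
    refine Measurable.prodMk ?_ ?_
    · exact measurable_pi_iff.2 fun n => measurable_fst.comp (measurable_pi_apply n)
    · exact measurable_pi_iff.2 fun n => measurable_snd.comp (measurable_pi_apply n)
  measurable_invFun := by
    refine measurable_pi_iff.2 fun n => ?_
    exact Measurable.prodMk ((measurable_pi_apply n).comp measurable_fst)
      ((measurable_pi_apply n).comp measurable_snd)

/-- all histories with given values (newest first) and admissible labels -/
def comps : List ℕ → Finset (List (ℕ × ℕ × Bool))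
  | [] => {[]}
  | a :: l => (comps l).biUnion fun h =>
      ((Finset.range (l.length + 1)) ×ˢ (Finset.univ : Finset Bool)).image fun q => (a, q) :: h

theorem mem_comps (f : ℕ → ℕ) (p : ℕ → ℕ × Bool) (hp : ∀ n, (p n).1 ≤ n) (n : ℕ) :
    hist (fun n => (f n, p n)) n ∈ comps ((List.range n).map f).reverse := by
  induction n with
  | zero => simp [comps, hist]
  | succ n ih =>
    rw [List.range_succ, List.map_append, List.reverse_append]
    simp only [List.map_cons, List.map_nil, List.reverse_cons, List.reverse_nil, List.nil_append,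
      List.cons_append]
    rw [comps, Finset.mem_biUnion]
    refine ⟨_, ih, ?_⟩
    rw [Finset.mem_image]
    refine ⟨p n, ?_, rfl⟩
    rw [Finset.mem_product]
    refine ⟨Finset.mem_range.2 ?_, Finset.mem_univ _⟩
    simpa using Nat.lt_succ_of_le (hp n)

/-- **Block codes exist.** -/
theorem exists_codesB (hG : GrzStmt) : CodeStmtB := by
  obtain ⟨S, hS, -, hScap⟩ := exists_scale
  obtain ⟨P, hP, hPle, hPcap⟩ := hG
  refine ⟨seqEquiv ⁻¹' (S ×ˢ P), (hS.prod hP).preimage_equiv seqEquiv,
    fun y hy n => hPle _ hy.2 n, fun H => ?_⟩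
  obtain ⟨f, hf, hE⟩ := hScap fun l => (comps l.reverse).sup fun h =>
    (Finset.range (l.length + 1)).sup fun c => H h c
  obtain ⟨p, hp, hpc⟩ := hPcap _ hE
  refine ⟨fun n => (f n, p n), ⟨hf, hp⟩, fun c => ?_⟩
  refine (hpc c).mono ?_
  rintro n ⟨hn, hc⟩
  refine ⟨hc, le_trans ?_ hn⟩
  have h1 : H (hist (fun n => (f n, p n)) n) c ≤
      (Finset.range (((List.range n).map f).length + 1)).sup
        fun c => H (hist (fun n => (f n, p n)) n) c := by
    refine Finset.le_sup (f := fun c => H (hist (fun n => (f n, p n)) n) c) ?_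
    rw [Finset.mem_range, List.length_map, List.length_range]
    exact Nat.lt_succ_of_le (hc ▸ hPle p hp n)
  exact h1.trans (Finset.le_sup (f := fun h => (Finset.range
    (((List.range n).map f).length + 1)).sup fun c => H h c) (mem_comps f p (hPle p hp) n))

theorem exists_codes (hG : GrzStmt) : CodeStmt := by
  obtain ⟨Y, h1, -, h2⟩ := exists_codesB hG
  exact ⟨Y, h1, h2⟩

/-- a set that projects injectively into a universally null set is universally null -/
theorem UnivNull.of_injOn {A B : Type*} [MeasurableSpace A] [MeasurableSpace B]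
    [MeasurableSingletonClass A] {S : Set A} {X : Set B} {D : B → A}
    (hS : UnivNull S) (hD : Measurable D) (hX : MapsTo D X S) (hinj : InjOn D X) :
    UnivNull X := by
  intro μ hμ hna
  set m : Measure A := μ.map D with hm
  have hmf : IsFiniteMeasure m := Measure.isFiniteMeasure_map μ D
  set C : Set A := {a | m {a} ≠ 0} with hC
  have hCc : C.Countable := countable_atoms m
  have hCm : MeasurableSet C := hCc.measurableSet
  have h1 : m (S \ C) = 0 := by
    have hna2 : NullSingletonClass (m.restrict Cᶜ) := by
      refine ⟨fun a => ?_⟩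
      rw [Measure.restrict_apply (measurableSet_singleton a)]
      by_cases ha : a ∈ C
      · convert measure_empty (μ := m)
        ext x
        simp only [mem_inter_iff, mem_singleton_iff, mem_compl_iff, mem_empty_iff_false,
          iff_false, not_and, not_not]
        rintro rfl
        exact ha
      · refine measure_mono_null inter_subset_left ?_
        by_contra hne
        exact ha hne
    have h2 := hS (m.restrict Cᶜ) inferInstance hna2
    rw [Measure.restrict_apply' hCm.compl] at h2
    exact h2
  have h2 : μ (X ∩ D ⁻¹' (S \ C)) = 0 := by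
    obtain ⟨N, hN1, hN2, hN3⟩ := exists_measurable_superset_of_null h1
    refine measure_mono_null (t := D ⁻¹' N) ?_ ?_
    · rintro b ⟨-, hb⟩
      exact hN1 hb
    · rw [hm, Measure.map_apply hD hN2] at hN3
      exact hN3
  have h3 : μ (⋃ a ∈ C, X ∩ D ⁻¹' {a}) = 0 := by
    refine (measure_biUnion_null_iff hCc).2 fun a _ => ?_
    refine Set.Subsingleton.measure_zero ?_ μ
    rintro x ⟨hx1, hx2⟩ y ⟨hy1, hy2⟩
    exact hinj hx1 hy1 (hx2.trans hy2.symm)
  refine measure_mono_null ?_ (measure_union_null h2 h3)
  intro b hb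
  by_cases hbC : D b ∈ C
  · right
    exact mem_biUnion hbC ⟨hb, rfl⟩
  · left
    exact ⟨hb, hX hb, hbC⟩

/-- the sequence with the label of time `n + 1` in the symbol of time `n` -/
def univ' (y : ℕ → ℕ × ℕ × Bool) (n : ℕ) : ℕ × ℕ :=
  ((y n).1, 2 * (y (n + 1)).2.1 + (y n).2.2.toNat)

/-- the inverse, for codes with label `0` at time `0` -/
def univInv (u : ℕ → ℕ × ℕ) (n : ℕ) : ℕ × ℕ × Bool :=
  ((u n).1, if n = 0 then 0 else (u (n - 1)).2 / 2, (u n).2 % 2 == 1)

theorem univInv_univ' {y : ℕ → ℕ × ℕ × Bool} (hy : (y 0).2.1 = 0) : univInv (univ' y) = y := by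
  funext n
  refine Prod.ext rfl (Prod.ext ?_ ?_)
  · rcases n with - | n
    · exact hy.symm
    · simp only [univInv, univ', Nat.succ_ne_zero, if_false, Nat.add_sub_cancel]
      cases (y n).2.2 <;> simp <;> omega
  · simp only [univInv, univ']
    rcases (y n).2.2 with - | - <;> simp [Nat.add_mod]

theorem measurable_univInv : Measurable univInv := by
  refine measurable_pi_iff.2 fun n => ?_
  have h1 : ∀ k, Measurable fun u : ℕ → ℕ × ℕ => u k := fun k =>
    measurable_pi_apply (X := fun _ : ℕ => ℕ × ℕ) k
  have h2 : Measurable fun q : (ℕ × ℕ) × (ℕ × ℕ) =>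
      ((q.1.1, if n = 0 then 0 else q.2.2 / 2, q.1.2 % 2 == 1) : ℕ × ℕ × Bool) :=
    measurable_of_countable _
  exact h2.comp ((h1 n).prodMk (h1 (n - 1)))

/-- the prefix of the recoded sequence, from the history and the present label -/
def conv : List (ℕ × ℕ × Bool) → ℕ → List (ℕ × ℕ)
  | [], _ => []
  | a :: h, c => conv h a.2.1 ++ [(a.1, 2 * c + a.2.2.toNat)]

theorem conv_hist (y : ℕ → ℕ × ℕ × Bool) (n : ℕ) :
    conv (hist y n) (y n).2.1 = (List.range n).map (univ' y) := by
  induction n with
  | zero => rfl
  | succ n ih =>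
    rw [hist, conv, ih, List.range_succ, List.map_append]
    rfl

theorem exists_universe (hG : GrzStmt) : UniverseStmt := by
  obtain ⟨Y, hY1, hY2, hY3⟩ := exists_codesB hG
  have h0 : ∀ y ∈ Y, (y 0).2.1 = 0 := fun y hy => Nat.le_zero.1 (hY2 y hy 0)
  refine ⟨univ' '' Y, ?_, ?_, fun H => ?_⟩
  · refine UnivNull.of_injOn hY1 measurable_univInv ?_ ?_
    · rintro _ ⟨y, hy, rfl⟩
      rw [univInv_univ' (h0 y hy)]
      exact hy
    · rintro _ ⟨y, hy, rfl⟩ _ ⟨y', hy', rfl⟩ h
      rw [univInv_univ' (h0 y hy), univInv_univ' (h0 y' hy')] at h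
      rw [h]
  · rintro _ ⟨y, hy, rfl⟩ n
    have h1 := hY2 y hy (n + 1)
    have h2 : (y n).2.2.toNat ≤ 1 := Bool.toNat_le _
    simp only [univ']
    omega
  · obtain ⟨y, hy, hcap⟩ := hY3 fun h c => H (conv h c)
    refine ⟨univ' y, mem_image_of_mem _ hy, fun L N => ?_⟩
    obtain ⟨n, hn, hnN⟩ := (hcap L).exists_gt (N + 1)
    obtain ⟨hn1, hn2⟩ := hn
    refine ⟨n, by omega, by omega, ?_, ?_⟩
    · obtain ⟨m, rfl⟩ : ∃ m, n = m + 1 := ⟨n - 1, by omega⟩
      simp only [univ', Nat.add_sub_cancel, hn1]
      have h2 : (y m).2.2.toNat ≤ 1 := Bool.toNat_le _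
      omega
    · rw [← conv_hist, hn1]
      exact hn2

end Pool.Agent.Helper82UN
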