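import Pool.Agent.Helper82_UN.Unif
import Pool.Agent.Helper82_UN.Capt

/-!
# Label functions with tags (a theorem of Grzegorek)

Let `Z` be a subset of the unit interval of positive outer measure, of least cardinality. Well-order
`Z`, so that all proper initial segments are null, and let `tag ξ` code a null set that contains all
predecessors of `ξ`. The set of all pairs (label function of `ξ`, tag of `ξ`) is universally null.
-/

set_option autoImplicit false

namespace Pool.Agent.Helper82UN

open MeasureTheory Set unitInterval ProbabilityTheory Filter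
open scoped ENNReal

/-! ### a set of positive outer measure of least cardinality -/

theorem exists_minimal : ∃ Z : Set I, volume Z ≠ 0 ∧
    ∀ W : Set I, Cardinal.mk W < Cardinal.mk Z → volume W = 0 := by
  let C : Set Cardinal.{0} := {c | ∃ Z : Set I, Cardinal.mk Z = c ∧ volume Z ≠ 0}
  have hne : C.Nonempty := ⟨_, univ, rfl, by simp⟩
  obtain ⟨Z, hZ1, hZ2⟩ := WellFounded.min_mem Cardinal.lt_wf C hne
  refine ⟨Z, hZ2, fun W hW => ?_⟩
  by_contra hWn
  exact WellFounded.not_lt_min Cardinal.lt_wf C (x := Cardinal.mk W) ⟨W, rfl, hWn⟩ (hZ1 ▸ hW)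

theorem small_null {Z : Set I} (hZ : ∀ W : Set I, Cardinal.mk W < Cardinal.mk Z → volume W = 0)
    {X : Type} [MeasurableSpace X] [StandardBorelSpace X] (μ : Measure X) [IsFiniteMeasure μ]
    [NullSingletonClass μ] {W : Set X} (hW : Cardinal.mk W < Cardinal.mk Z) : μ W = 0 := by
  rcases eq_or_ne μ 0 with h0 | h0
  · rw [h0]
    rfl
  have hu : μ univ ≠ 0 := fun h => h0 (Measure.measure_univ_eq_zero.1 h)
  set μ' : Measure X := (μ univ)⁻¹ • μ with hμ'
  have h1 : IsProbabilityMeasure μ' := by
    refine ⟨?_⟩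
    rw [hμ', Measure.smul_apply, smul_eq_mul, ENNReal.inv_mul_cancel hu (measure_ne_top _ _)]
  have h2 : NullSingletonClass μ' := by
    refine ⟨fun x => ?_⟩
    rw [hμ', Measure.smul_apply, measure_singleton, smul_zero]
  obtain ⟨T, hT, hmap⟩ := exists_map_eq_volume μ'
  have h3 : volume (T '' W) = 0 := hZ _ (lt_of_le_of_lt Cardinal.mk_image_le hW)
  obtain ⟨N, hN1, hN2, hN3⟩ := exists_measurable_superset_of_null h3
  have h4 : μ' (T ⁻¹' N) = 0 := by
    rw [← Measure.map_apply hT hN2, hmap, hN3]
  have h5 : μ' W = 0 := measure_mono_null (fun x hx => hN1 (mem_image_of_mem T hx)) h4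
  rw [hμ', Measure.smul_apply, smul_eq_mul, mul_eq_zero] at h5
  rcases h5 with h5 | h5
  · exact absurd h5 (ENNReal.inv_ne_zero.2 (measure_ne_top _ _))
  · exact h5

/-! ### codes of null sets -/

theorem nonempty_basis : (TopologicalSpace.countableBasis I).Nonempty := by
  obtain ⟨V, hV, -⟩ := (TopologicalSpace.isBasis_countableBasis I).exists_subset_of_mem_open
    (mem_univ (0 : I)) isOpen_univ
  exact ⟨V, hV⟩

/-- an enumeration of a basis of the unit interval -/
noncomputable def bas : ℕ → Set I :=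
  ((TopologicalSpace.countable_countableBasis I).exists_eq_range
    nonempty_basis).choose

theorem range_bas : TopologicalSpace.countableBasis I = range bas :=
  ((TopologicalSpace.countable_countableBasis I).exists_eq_range
    nonempty_basis).choose_spec

theorem isOpen_bas (k : ℕ) : IsOpen (bas k) :=
  TopologicalSpace.isOpen_of_mem_countableBasis (range_bas ▸ mem_range_self k)

/-- the open set coded by row `m` of `t` -/
def Uo (t : ℕ → Bool) (m : ℕ) : Set I := {x | ∃ k, t (Nat.pair m k) = true ∧ x ∈ bas k}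

/-- the null set coded by `t` -/
def Nl (t : ℕ → Bool) : Set I :=
  {x | (∀ m, volume (Uo t m) ≤ (1 / 2 : ℝ≥0∞) ^ m) ∧ ∀ m, x ∈ Uo t m}

theorem measurableSet_Uo (m : ℕ) : MeasurableSet {p : I × (ℕ → Bool) | p.1 ∈ Uo p.2 m} := by
  have : {p : I × (ℕ → Bool) | p.1 ∈ Uo p.2 m} =
      ⋃ k, {p | p.2 (Nat.pair m k) = true} ∩ {p | p.1 ∈ bas k} := by
    ext p
    simp [Uo]
  rw [this]
  refine MeasurableSet.iUnion fun k => MeasurableSet.inter ?_ ?_
  · have h : Measurable fun p : I × (ℕ → Bool) => p.2 (Nat.pair m k) :=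
      (measurable_pi_apply (X := fun _ : ℕ => Bool) (Nat.pair m k)).comp measurable_snd
    exact h (measurableSet_singleton true)
  · exact measurable_fst (isOpen_bas k).measurableSet

theorem measurableSet_Nl : MeasurableSet {p : I × (ℕ → Bool) | p.1 ∈ Nl p.2} := by
  have h1 : ∀ m, Measurable fun t : ℕ → Bool => volume (Uo t m) := fun m =>
    measurable_measure_prodMk_right (measurableSet_Uo m)
  have : {p : I × (ℕ → Bool) | p.1 ∈ Nl p.2} =
      (⋂ m, {p : I × (ℕ → Bool) | volume (Uo p.2 m) ≤ (1 / 2 : ℝ≥0∞) ^ m}) ∩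
        ⋂ m, {p : I × (ℕ → Bool) | p.1 ∈ Uo p.2 m} := by
    ext p
    simp [Nl]
  rw [this]
  refine MeasurableSet.inter (MeasurableSet.iInter fun m => ?_)
    (MeasurableSet.iInter fun m => measurableSet_Uo m)
  exact ((h1 m).comp measurable_snd) measurableSet_Iic

theorem volume_Nl (t : ℕ → Bool) : volume (Nl t) = 0 := by
  by_cases h : ∀ m, volume (Uo t m) ≤ (1 / 2 : ℝ≥0∞) ^ m
  · have h1 : ∀ m, volume (Nl t) ≤ (1 / 2 : ℝ≥0∞) ^ m := fun m =>
      (measure_mono fun x hx => hx.2 m).trans (h m)
    have h2 : Tendsto (fun m : ℕ => (1 / 2 : ℝ≥0∞) ^ m) atTop (nhds 0) :=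
      ENNReal.tendsto_pow_atTop_nhds_zero_of_lt_one (by
        rw [one_div]
        exact ENNReal.inv_lt_one.2 (by norm_num))
    exact le_antisymm (ge_of_tendsto' h2 h1) zero_le
  · convert measure_empty (μ := (volume : Measure I))
    ext x
    simp only [mem_empty_iff_false, iff_false]
    exact fun hx => h hx.1

theorem exists_code {N : Set I} (hN : volume N = 0) : ∃ t, N ⊆ Nl t := by
  classical
  have h1 : ∀ m : ℕ, ∃ U : Set I, N ⊆ U ∧ IsOpen U ∧ volume U ≤ (1 / 2 : ℝ≥0∞) ^ m := by
    intro m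
    have hpos : (0 : ℝ≥0∞) < (1 / 2 : ℝ≥0∞) ^ m := by
      refine pos_iff_ne_zero.2 (pow_ne_zero _ ?_)
      rw [one_div]
      exact ENNReal.inv_ne_zero.2 (by norm_num)
    obtain ⟨U, hU1, hU2, hU3⟩ := N.exists_isOpen_lt_of_lt (μ := volume) _ (hN ▸ hpos)
    exact ⟨U, hU1, hU2, hU3.le⟩
  choose U hU1 hU2 hU3 using h1
  have h2 : ∀ m, Uo (fun n => decide (bas (Nat.unpair n).2 ⊆ U (Nat.unpair n).1)) m = U m := by
    intro m
    ext x
    simp only [Uo, Nat.unpair_pair, decide_eq_true_eq, mem_ofPred_eq]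
    constructor
    · rintro ⟨k, hk1, hk2⟩
      exact hk1 hk2
    · intro hx
      obtain ⟨V, hV1, hV2, hV3⟩ := (TopologicalSpace.isBasis_countableBasis I).exists_subset_of_mem_open
        hx (hU2 m)
      rw [range_bas] at hV1
      obtain ⟨k, rfl⟩ := hV1
      exact ⟨k, hV3, hV2⟩
  refine ⟨fun n => decide (bas (Nat.unpair n).2 ⊆ U (Nat.unpair n).1),
    fun x hx => ⟨fun m => ?_, fun m => ?_⟩⟩
  · rw [h2]
    exact hU3 m
  · rw [h2]
    exact hU1 m hx

/-! ### random labels -/

/-- a law on `ℕ` which gives every number a positive probability -/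
noncomputable def law : Measure ℕ := geometricMeasure ⟨1 / 2, by norm_num, by norm_num⟩

noncomputable instance : IsProbabilityMeasure law := by
  unfold law
  infer_instance

theorem law_pos (c : ℕ) : law {c} ≠ 0 := by
  have h := geometricMeasure_real_singleton_pos (p := (⟨1 / 2, by norm_num, by norm_num⟩ : I))
    (by
      intro h
      have := congrArg (Subtype.val) h
      norm_num at this) (by
      intro h
      have := congrArg (Subtype.val) h
      norm_num at this) c
  intro h0
  rw [measureReal_def, show geometricMeasure (⟨1 / 2, by norm_num, by norm_num⟩ : I) = law from rfl,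
    h0] at h
  simp at h

theorem ae_labels {E : Set ℕ} (hE : E.Infinite) :
    ∀ᵐ p ∂(Measure.infinitePi fun _ : ℕ => law), ∀ c, {n | n ∈ E ∧ p n = c}.Infinite := by
  rw [ae_all_iff]
  intro c
  have he : StrictMono (Nat.nth (· ∈ E)) := Nat.nth_strictMono hE
  set e : ℕ → ℕ := Nat.nth (· ∈ E)
  have hmem : ∀ i, e i ∈ E := fun i => Nat.nth_mem_of_infinite hE i
  set s : ℕ → Set (ℕ → ℕ) := fun i => {p | p (e i) = c} with hs
  have hsm : ∀ i, MeasurableSet (s i) := fun i =>
    (measurable_pi_apply (X := fun _ : ℕ => ℕ) (e i)) (measurableSet_singleton c)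
  have hind : iIndepFun (fun (i : ℕ) (p : ℕ → ℕ) => p (e i))
      (Measure.infinitePi fun _ : ℕ => law) := by
    have h1 : iIndepFun (fun (n : ℕ) (p : ℕ → ℕ) => p n) (Measure.infinitePi fun _ : ℕ => law) :=
      iIndepFun_infinitePi (X := fun _ ω => ω) (fun _ => measurable_id)
    exact h1.precomp he.injective
  have hset : iIndepSet s (Measure.infinitePi fun _ : ℕ => law) := by
    rw [iIndepSet_iff_meas_biInter hsm]
    intro S
    exact hind.measure_inter_preimage_eq_mul S (sets := fun _ => {c})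
      (fun _ _ => measurableSet_singleton c)
  have hval : ∀ i, (Measure.infinitePi fun _ : ℕ => law) (s i) = law {c} := by
    intro i
    have h1 := Measure.infinitePi_map_eval (fun _ : ℕ => law) (e i)
    have h2 := Measure.map_apply (μ := Measure.infinitePi fun _ : ℕ => law)
      (measurable_pi_apply (X := fun _ : ℕ => ℕ) (e i)) (measurableSet_singleton c)
    rw [h1] at h2
    exact h2.symm
  have hlim := measure_limsup_eq_one hsm hset (by
    simp only [hval]
    exact ENNReal.tsum_const_eq_top_of_ne_zero (law_pos c))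
  have hae : ∀ᵐ p ∂(Measure.infinitePi fun _ : ℕ => law), p ∈ limsup s atTop := by
    rw [← prob_compl_eq_zero_iff (MeasurableSet.measurableSet_limsup hsm)] at hlim
    exact hlim
  filter_upwards [hae] with p hp
  rw [mem_limsup_iff_frequently_mem] at hp
  have h2 : {i | p ∈ s i}.Infinite := Nat.frequently_atTop_iff_infinite.1 hp
  refine (h2.image he.injective.injOn).mono ?_
  rintro _ ⟨i, hi, rfl⟩
  exact ⟨hmem i, hi⟩

/-! ### the theorem -/

/-- **Label functions with tags exist.** -/
theorem grz : GrzStmt := by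
  obtain ⟨Z, hZ1, hZ2⟩ := exists_minimal
  obtain ⟨r, wo, hr⟩ := Cardinal.exists_ord_eq Z
  obtain ⟨G, hG, hGmap⟩ := Measure.exists_measurable_map_eq (Measure.infinitePi fun _ : ℕ => law)
  have hseg : ∀ ξ : Z, Cardinal.mk {η : Z // r η ξ} < Cardinal.mk Z := fun ξ =>
    Cardinal.card_typein_lt (r := r) ξ hr
  have hcode : ∀ ξ : Z, ∃ t, ((↑) '' {η : Z | r η ξ} : Set I) ⊆ Nl t := fun ξ =>
    exists_code (hZ2 _ (lt_of_le_of_lt Cardinal.mk_image_le (hseg ξ)))
  choose tag htag using hcode
  let lab : Z → ℕ → ℕ × Bool := fun ξ n => (min (G ξ n) n, tag ξ n)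
  refine ⟨range lab, ?_, ?_, ?_⟩
  · intro μ hμ hna
    set W : Set (I × (ℕ → ℕ × Bool)) := {q | q.1 ∈ Nl fun n => (q.2 n).2} with hW
    have hWm : MeasurableSet W := by
      have : Measurable fun q : I × (ℕ → ℕ × Bool) => (q.1, fun n => (q.2 n).2) := by
        refine measurable_fst.prodMk (measurable_pi_iff.2 fun n => ?_)
        exact measurable_snd.comp ((measurable_pi_apply n).comp measurable_snd)
      exact this measurableSet_Nl
    have h1 : (μ.prod (volume : Measure I)) (Prod.swap ⁻¹' W) = 0 := by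
      rw [Measure.measure_prod_null (measurable_swap hWm)]
      exact ae_of_all _ fun p => volume_Nl fun n => (p n).2
    have h2 : ((volume : Measure I).prod μ) W = 0 := by
      rw [← Measure.prod_swap, Measure.map_apply measurable_swap hWm]
      exact h1
    rw [Measure.measure_prod_null hWm] at h2
    have h3 : ∃ η : Z, μ (Prod.mk (η : I) ⁻¹' W) = 0 := by
      by_contra hcon
      push Not at hcon
      apply hZ1
      refine measure_mono_null ?_ (ae_iff.1 h2)
      intro x hx
      exact hcon ⟨x, hx⟩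
    obtain ⟨η, hη⟩ := h3
    have h4 : μ (lab '' {ξ : Z | r ξ η}) = 0 :=
      small_null hZ2 μ (lt_of_le_of_lt Cardinal.mk_image_le (hseg η))
    refine measure_mono_null ?_ (measure_union_null (measure_union_null hη h4)
      (measure_singleton (lab η)))
    rintro _ ⟨ξ, rfl⟩
    rcases trichotomous_of r η ξ with h | h | h
    · left; left
      exact htag ξ ⟨η, h, rfl⟩
    · right
      rw [h]
      rfl
    · left; right
      exact ⟨ξ, h, rfl⟩
  · rintro _ ⟨ξ, rfl⟩ n
    exact min_le_right _ _
  · intro E hE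
    have h1 := ae_labels hE
    rw [← hGmap] at h1
    have h2 : ∀ᵐ x : I, ∀ c, {n | n ∈ E ∧ G x n = c}.Infinite := ae_of_ae_map hG.aemeasurable h1
    have h3 : ∃ ξ : Z, ∀ c, {n | n ∈ E ∧ G ξ n = c}.Infinite := by
      by_contra hcon
      apply hZ1
      refine measure_mono_null ?_ (ae_iff.1 h2)
      intro x hx hx2
      exact hcon ⟨⟨x, hx⟩, hx2⟩
    obtain ⟨ξ, hξ⟩ := h3
    refine ⟨lab ξ, mem_range_self ξ, fun c => ?_⟩
    have h4 : ({n | n ∈ E ∧ G ξ n = c} \ Iio c).Infinite := (hξ c).sdiff (finite_Iio c)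
    refine h4.mono ?_
    rintro n ⟨⟨hn1, hn2⟩, hn3⟩
    refine ⟨hn1, ?_⟩
    have hn4 : c ≤ n := not_lt.1 hn3
    change min (G ξ n) n = c
    rw [hn2]
    exact min_eq_left hn4

/-- **Block codes exist.** -/
theorem codes : CodeStmt := exists_codes grz

theorem codesB : CodeStmtB := exists_codesB grz

/-- **Universes exist** (the form with the label of time `n` in the symbol of time `n - 1`). -/
theorem universes : UniverseStmt := exists_universe grz

end Pool.Agent.Helper82UN
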