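import Mathlib

/-!
# Universally null sets

A subset `Y` of a measurable space is universally null if it is null for every finite measure
without atoms.
-/

set_option autoImplicit false

namespace Pool.Agent.Helper82UN

open MeasureTheory Set

/-- `Y` has outer measure zero for every finite measure without atoms. -/
def UnivNull {X : Type*} [MeasurableSpace X] (Y : Set X) : Prop :=
  ∀ μ : Measure X, IsFiniteMeasure μ → NullSingletonClass μ → μ Y = 0

/-- `f n ≤ g n` for all but finitely many `n` -/
def LEs (f g : ℕ → ℕ) : Prop := ∃ N, ∀ n ≥ N, f n ≤ g n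

theorem LEs.refl (f : ℕ → ℕ) : LEs f f := ⟨0, fun _ _ => le_rfl⟩

theorem LEs.trans {f g h : ℕ → ℕ} (h1 : LEs f g) (h2 : LEs g h) : LEs f h := by
  obtain ⟨N, hN⟩ := h1
  obtain ⟨M, hM⟩ := h2
  exact ⟨max N M, fun n hn => (hN n (le_trans (le_max_left _ _) hn)).trans
    (hM n (le_trans (le_max_right _ _) hn))⟩

theorem measurableSet_LEs : MeasurableSet {p : (ℕ → ℕ) × (ℕ → ℕ) | LEs p.1 p.2} := by
  have : {p : (ℕ → ℕ) × (ℕ → ℕ) | LEs p.1 p.2} =
      ⋃ N : ℕ, ⋂ n : ℕ, ⋂ _ : n ≥ N, {p | p.1 n ≤ p.2 n} := by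
    ext p
    simp [LEs]
  rw [this]
  refine MeasurableSet.iUnion fun N => MeasurableSet.iInter fun n => MeasurableSet.iInter fun _ => ?_
  exact measurableSet_le ((measurable_pi_apply n).comp measurable_fst)
    ((measurable_pi_apply n).comp measurable_snd)

/-- the functions which agree with `f` from some place on form a countable set -/
theorem countable_eqs (f : ℕ → ℕ) : {g : ℕ → ℕ | ∃ N, ∀ n ≥ N, g n = f n}.Countable := by
  have h : {g : ℕ → ℕ | ∃ N, ∀ n ≥ N, g n = f n} ⊆
      range fun s : List ℕ => fun n => if h : n < s.length then s[n] else f n := by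
    rintro g ⟨N, hN⟩
    refine ⟨(List.range N).map g, ?_⟩
    funext n
    by_cases hn : n < N
    · simp [hn]
    · simp [hn, hN n (not_lt.1 hn)]
  exact (countable_range _).mono h

end Pool.Agent.Helper82UN
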