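import Pool.Agent.Helper82_UN.Defs

/-!
# An unbounded family that is well-ordered by eventual domination is universally null

`exists_scale`: there is a universally null set `S` of strictly increasing functions such that
for every rule `H` some `f ∈ S` satisfies `H (f 0, …, f (n - 1)) ≤ f n` for infinitely many `n`.
-/

set_option autoImplicit false

namespace Pool.Agent.Helper82UN

open MeasureTheory Set
open scoped ENNReal

/-! ### well-ordered families are universally null -/

/-- A family indexed by a well-ordered set and increasing for eventual domination is universally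
null. -/
theorem univNull_of_wellOrdered {ι : Type*} [LinearOrder ι] [WellFoundedLT ι]
    (g : ι → ℕ → ℕ) (hg : ∀ i j, i ≤ j → LEs (g i) (g j)) : UnivNull (range g) := by
  intro μ hμ hna
  -- it is enough to treat initial segments
  have key : ∀ J : Set ι, (∀ i ∈ J, ∀ j ≤ i, j ∈ J) → (∀ i ∈ J, μ (g '' {j | j < i}) = 0) →
      μ (g '' J) = 0 := by
    intro J hJ hsmall
    by_contra hne
    set Z := g '' J with hZ
    set Z' := toMeasurable μ Z with hZ'
    set ν := μ.restrict Z' with hν
    have hνapp : ∀ M : Set (ℕ → ℕ), MeasurableSet M → ν M = μ (Z ∩ M) := by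
      intro M hM
      rw [hν, Measure.restrict_apply hM, inter_comm, hZ', Measure.measure_toMeasurable_inter hM
        (measure_ne_top μ Z)]
    set R : Set ((ℕ → ℕ) × (ℕ → ℕ)) := {p | LEs p.1 p.2} with hR
    have hRm : MeasurableSet R := measurableSet_LEs
    have hsec : ∀ f ∈ Z, ν {h | (f, h) ∈ R}ᶜ = 0 := by
      rintro f ⟨i, hi, rfl⟩
      have hm : MeasurableSet {h | (g i, h) ∈ R} := measurable_prodMk_left hRm
      rw [hνapp _ hm.compl]
      refine measure_mono_null ?_ (hsmall i hi)
      rintro h ⟨⟨j, hj, rfl⟩, hh⟩
      refine ⟨j, ?_, rfl⟩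
      by_contra hji
      exact hh (hg i j (not_lt.1 hji))
    have hmeas : Measurable fun f : ℕ → ℕ => ν (Prod.mk f ⁻¹' Rᶜ) :=
      measurable_measure_prodMk_left hRm.compl
    have hae : ∀ᵐ f ∂ν, ν (Prod.mk f ⁻¹' Rᶜ) = 0 := by
      rw [ae_iff]
      have hms : MeasurableSet {f | ¬ ν (Prod.mk f ⁻¹' Rᶜ) = 0} :=
        (hmeas (measurableSet_singleton 0)).compl
      rw [hνapp _ hms]
      convert measure_empty (μ := μ)
      ext f
      simp only [mem_inter_iff, mem_ofPred_eq, mem_empty_iff_false, iff_false, not_and, not_not]
      exact fun hf => hsec f hf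
    have hprod : (ν.prod ν) Rᶜ = 0 := by
      rw [Measure.measure_prod_null hRm.compl]
      exact hae
    have hswap : (ν.prod ν) (Prod.swap ⁻¹' Rᶜ) = 0 := by
      have := Measure.prod_swap (μ := ν) (ν := ν)
      rw [← Measure.map_apply measurable_swap hRm.compl, this]
      exact hprod
    have hae2 : ∀ᵐ f ∂ν, ν (Prod.mk f ⁻¹' (Prod.swap ⁻¹' Rᶜ)) = 0 :=
      (Measure.measure_prod_null (measurable_swap hRm.compl)).1 hswap
    have hνne : ν ≠ 0 := by
      intro h0
      apply hne
      have h1 := hνapp univ MeasurableSet.univ
      rw [inter_univ] at h1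
      rw [← h1, h0]
      rfl
    have hbot : (ae ν).NeBot := ae_neBot.2 hνne
    obtain ⟨f, hf1, hf2⟩ := (hae.and hae2).exists
    have hcount := countable_eqs f
    have h0 : ν {h | ∃ N, ∀ n ≥ N, h n = f n} = 0 := by
      rw [hνapp _ hcount.measurableSet]
      exact measure_mono_null inter_subset_right (hcount.measure_zero μ)
    have h1 : ν univ = 0 := by
      refine measure_mono_null ?_ (measure_union_null (measure_union_null hf1 hf2) h0)
      intro h _
      by_cases ha : LEs f h
      · by_cases hb : LEs h f
        · right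
          obtain ⟨N, hN⟩ := ha
          obtain ⟨M, hM⟩ := hb
          exact ⟨max N M, fun n hn => le_antisymm (hM n (le_trans (le_max_right _ _) hn))
            (hN n (le_trans (le_max_left _ _) hn))⟩
        · left; right; exact hb
      · left; left; exact ha
    exact hνne (Measure.measure_univ_eq_zero.1 h1)
  -- minimal initial segment of positive measure
  by_contra hne
  have hall : ∀ i, μ (g '' {j | j < i}) = 0 := by
    intro i
    induction i using WellFoundedLT.induction with
    | ind i ih =>
      exact key {j | j < i} (fun a ha b hb => lt_of_le_of_lt hb ha) (fun a ha => ih a ha)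
  exact hne (by
    rw [← image_univ]
    exact key univ (fun _ _ _ _ => mem_univ _) fun i _ => hall i)

/-! ### the scale -/

/-- the functions, well-ordered -/
def Idx : Type := ℕ → ℕ

open Classical in
noncomputable instance : LinearOrder Idx := linearOrderOfSTO (WellOrderingRel (α := Idx))

instance : WellFoundedLT Idx := ⟨(WellOrderingRel.isWellOrder (α := Idx)).wf⟩

open Classical in
/-- the scale: at stage `x` a strictly increasing function above `x` and above all previous
functions, if they are bounded -/
noncomputable def scale : Idx → ℕ → ℕ :=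
  WellFounded.fix (C := fun _ => ℕ → ℕ) (wellFounded_lt (α := Idx)) fun x prev =>
    if h : ∃ b : ℕ → ℕ, ∀ y (hy : y < x), LEs (prev y hy) b then
      fun n => ∑ i ∈ Finset.range (n + 1), (h.choose i + x i + 1)
    else 0

/-- the functions of the scale before `x` are bounded -/
def Good (x : Idx) : Prop := ∃ b : ℕ → ℕ, ∀ y < x, LEs (scale y) b

theorem scale_eq (x : Idx) (h : Good x) :
    scale x = fun n => ∑ i ∈ Finset.range (n + 1), (h.choose i + x i + 1) := by
  classical
  have h1 := WellFounded.fix_eq (C := fun _ => ℕ → ℕ) (wellFounded_lt (α := Idx))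
    (fun x prev => if h : ∃ b : ℕ → ℕ, ∀ y (hy : y < x), LEs (prev y hy) b then
      fun n => ∑ i ∈ Finset.range (n + 1), (h.choose i + x i + 1)
    else 0) x
  exact h1.trans (dif_pos h)

theorem strictMono_scale (x : Idx) (h : Good x) : StrictMono (scale x) := by
  refine strictMono_nat_of_lt_succ fun n => ?_
  rw [scale_eq x h]
  simp only
  rw [Finset.sum_range_succ _ (n + 1)]
  omega

theorem le_scale (x : Idx) (h : Good x) (n : ℕ) : x n + 1 ≤ scale x n := by
  rw [scale_eq x h]
  simp only
  rw [Finset.sum_range_succ]
  omega

theorem choose_le_scale (x : Idx) (h : Good x) (n : ℕ) : h.choose n ≤ scale x n := by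
  rw [scale_eq x h]
  simp only
  rw [Finset.sum_range_succ]
  omega

/-- the initial segment of good stages -/
def Seg : Set Idx := {x | ∀ y ≤ x, Good y}

/-- the functions of the scale -/
def Scale : Set (ℕ → ℕ) := range fun x : Seg => scale x.1

theorem univNull_scale : UnivNull Scale := by
  refine univNull_of_wellOrdered _ fun i j hij => ?_
  rcases eq_or_lt_of_le hij with h | h
  · rw [h]
    exact LEs.refl _
  · have hj : Good j.1 := j.2 j.1 le_rfl
    exact LEs.trans (hj.choose_spec i.1 h) ⟨0, fun n _ => choose_le_scale j.1 hj n⟩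

theorem strictMono_of_mem_scale {f : ℕ → ℕ} (hf : f ∈ Scale) : StrictMono f := by
  obtain ⟨x, rfl⟩ := hf
  exact strictMono_scale x.1 (x.2 x.1 le_rfl)

theorem unbounded_scale (h : ℕ → ℕ) : ∃ f ∈ Scale, ¬ LEs f h := by
  by_contra hcon
  push Not at hcon
  have hall : ∀ x : Idx, x ∈ Seg := by
    intro x
    induction x using WellFoundedLT.induction with
    | ind x ih =>
      intro y hy
      rcases eq_or_lt_of_le hy with rfl | hlt
      · exact ⟨h, fun z hz => hcon _ ⟨⟨z, ih z hz⟩, rfl⟩⟩
      · exact ih y hlt y le_rfl
  obtain ⟨N, hN⟩ := hcon _ ⟨⟨h, hall h⟩, rfl⟩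
  have h1 := hN N le_rfl
  have h2 := le_scale h (hall h h le_rfl) N
  simp only at h1
  omega

/-! ### the capture property of an unbounded family -/

section Capture

variable (H : List ℕ → ℕ)

/-- all continuations of `s` by `k` values below the rule -/
def conts (s : List ℕ) : ℕ → Finset (List ℕ)
  | 0 => {s}
  | k + 1 => (conts s k).biUnion fun l => (Finset.range (H l)).image fun a => l ++ [a]

/-- the bound for the `k`-th further value -/
def cbound (s : List ℕ) (k : ℕ) : ℕ := (conts H s k).sup H

theorem mem_conts {f : ℕ → ℕ} {N : ℕ} (hf : ∀ n ≥ N, f n < H ((List.range n).map f)) (k : ℕ) :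
    (List.range (N + k)).map f ∈ conts H ((List.range N).map f) k := by
  induction k with
  | zero => simp [conts]
  | succ k ih =>
    rw [conts, Finset.mem_biUnion]
    refine ⟨_, ih, ?_⟩
    rw [Finset.mem_image]
    refine ⟨f (N + k), Finset.mem_range.2 (hf _ (by omega)), ?_⟩
    rw [← add_assoc, List.range_succ, List.map_append]
    rfl

/-- a function which dominates all functions that obey the rule from some place on -/
def dom (n : ℕ) : ℕ := (Finset.range (n + 1)).sup fun m =>
  match (Encodable.decode m : Option (List ℕ)) with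
  | some s => cbound H s (n - s.length)
  | none => 0

theorem le_dom {f : ℕ → ℕ} {N : ℕ} (hf : ∀ n ≥ N, f n < H ((List.range n).map f)) :
    LEs f (dom H) := by
  refine ⟨max N (Encodable.encode ((List.range N).map f)), fun n hn => ?_⟩
  have h1 : N ≤ n := le_trans (le_max_left _ _) hn
  have h2 : Encodable.encode ((List.range N).map f) ≤ n := le_trans (le_max_right _ _) hn
  obtain ⟨k, rfl⟩ := Nat.exists_eq_add_of_le h1
  have h3 : f (N + k) ≤ cbound H ((List.range N).map f) k :=
    (hf _ (by omega)).le.trans (Finset.le_sup (f := H) (mem_conts H hf k))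
  refine h3.trans ?_
  have h4 := Finset.le_sup (s := Finset.range (N + k + 1))
    (f := fun m => match (Encodable.decode m : Option (List ℕ)) with
      | some s => cbound H s (N + k - s.length)
      | none => 0) (Finset.mem_range.2 (Nat.lt_succ_of_le h2))
  simp only [Encodable.encodek, List.length_map, List.length_range, Nat.add_sub_cancel_left] at h4
  exact h4

end Capture

/-- **The scale.** There is a universally null set of strictly increasing functions such that
for every rule `H` some element `f` satisfies `H (f 0, …, f (n - 1)) ≤ f n` infinitely often. -/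
theorem exists_scale : ∃ S : Set (ℕ → ℕ), UnivNull S ∧ (∀ f ∈ S, StrictMono f) ∧
    ∀ H : List ℕ → ℕ, ∃ f ∈ S, {n | H ((List.range n).map f) ≤ f n}.Infinite := by
  refine ⟨Scale, univNull_scale, fun f hf => strictMono_of_mem_scale hf, fun H => ?_⟩
  obtain ⟨f, hf, hfd⟩ := unbounded_scale (dom H)
  refine ⟨f, hf, fun hfin => hfd ?_⟩
  obtain ⟨N, hN⟩ := hfin.bddAbove
  refine le_dom H (N := N + 1) fun n hn => ?_
  by_contra hcon
  have := hN (show n ∈ {n | H ((List.range n).map f) ≤ f n} from not_lt.1 hcon)
  omega

end Pool.Agent.Helper82UN
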