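import Pool.Agent.Helper82_UN.Defs

/-!
# Every measure without atoms is mapped to the uniform distribution

`exists_map_eq_volume`: a probability measure without singletons of positive measure on a standard
Borel space is mapped to the volume of the unit interval by a measurable map.
-/

set_option autoImplicit false

namespace Pool.Agent.Helper82UN

open MeasureTheory Set unitInterval
open scoped ENNReal

set_option linter.unusedSectionVars false

section Real

variable (ν : Measure I) [NullSingletonClass ν]

theorem measure_lower_le {L : Set I} (hL : ∀ x ∈ L, ∀ y ≤ x, y ∈ L) {c : ℝ≥0∞}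
    (hc : ∀ x ∈ L, ν (Iic x) ≤ c) : ν L ≤ c := by
  obtain ⟨Q, hQc, hQd⟩ := TopologicalSpace.exists_countable_dense I
  have hsub : L ⊆ {sSup L} ∪ ⋃ q ∈ Q ∩ L, Iic q := by
    intro x hx
    rcases eq_or_lt_of_le (le_sSup hx) with h | h
    · left
      exact h
    · right
      obtain ⟨y, hy, hxy⟩ := lt_sSup_iff.1 h
      obtain ⟨q, hq, hq1, hq2⟩ := hQd.exists_between hxy
      exact mem_biUnion ⟨hq, hL y hy q hq2.le⟩ hq1.le
  refine (measure_mono hsub).trans ((measure_union_le _ _).trans ?_)
  rw [measure_singleton, zero_add, measure_biUnion_eq_iSup (hQc.mono inter_subset_left)]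
  · exact iSup₂_le fun q hq => hc q hq.2
  · intro a ha b hb
    rcases le_total a b with h | h
    · exact ⟨b, hb, Iic_subset_Iic.2 h, Subset.rfl⟩
    · exact ⟨a, ha, Subset.rfl, Iic_subset_Iic.2 h⟩

theorem measure_upper_le {L : Set I} (hL : ∀ x ∈ L, ∀ y ≥ x, y ∈ L) {c : ℝ≥0∞}
    (hc : ∀ x ∈ L, ν (Ici x) ≤ c) : ν L ≤ c := by
  obtain ⟨Q, hQc, hQd⟩ := TopologicalSpace.exists_countable_dense I
  have hsub : L ⊆ {sInf L} ∪ ⋃ q ∈ Q ∩ L, Ici q := by
    intro x hx
    rcases eq_or_lt_of_le (sInf_le hx) with h | h
    · left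
      exact h.symm
    · right
      obtain ⟨y, hy, hxy⟩ := sInf_lt_iff.1 h
      obtain ⟨q, hq, hq1, hq2⟩ := hQd.exists_between hxy
      exact mem_biUnion ⟨hq, hL y hy q hq1.le⟩ hq2.le
  refine (measure_mono hsub).trans ((measure_union_le _ _).trans ?_)
  rw [measure_singleton, zero_add, measure_biUnion_eq_iSup (hQc.mono inter_subset_left)]
  · exact iSup₂_le fun q hq => hc q hq.2
  · intro a ha b hb
    rcases le_total a b with h | h
    · exact ⟨a, ha, Subset.rfl, Ici_subset_Ici.2 h⟩
    · exact ⟨b, hb, Ici_subset_Ici.2 h, Subset.rfl⟩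

variable [IsProbabilityMeasure ν]

/-- the distribution function of `ν` -/
noncomputable def dist (x : I) : I := ⟨ν.real (Iic x), measureReal_nonneg, measureReal_le_one⟩

theorem monotone_dist : Monotone (dist ν) := fun _ _ h =>
  Subtype.mk_le_mk.2 (measureReal_mono (Iic_subset_Iic.2 h))

theorem measurable_dist : Measurable (dist ν) := (monotone_dist ν).measurable

theorem ofReal_dist (x : I) : ENNReal.ofReal (dist ν x : ℝ) = ν (Iic x) :=
  ofReal_measureReal (measure_ne_top _ _)

theorem map_dist : ν.map (dist ν) = volume := by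
  have : IsProbabilityMeasure (ν.map (dist ν)) :=
    Measure.isProbabilityMeasure_map (measurable_dist ν).aemeasurable
  refine Measure.ext_of_Iic _ _ fun t => ?_
  rw [Measure.map_apply (measurable_dist ν) measurableSet_Iic, unitInterval.volume_Iic]
  apply le_antisymm
  · refine measure_lower_le ν (fun x hx y hy => (monotone_dist ν hy).trans hx) fun x hx => ?_
    rw [← ofReal_dist]
    exact ENNReal.ofReal_le_ofReal hx
  · have h1 : ν (dist ν ⁻¹' Ioi t) ≤ ENNReal.ofReal (1 - t) := by
      refine measure_upper_le ν (fun x hx y hy => lt_of_lt_of_le hx (monotone_dist ν hy))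
        fun x hx => ?_
      have h2 : ν (Ici x) = ENNReal.ofReal (1 - dist ν x) := by
        have h3 : ν (Ici x) = 1 - ν (Iio x) := by
          rw [← compl_Iio, prob_compl_eq_one_sub measurableSet_Iio]
        have h4 : ν (Iio x) = ν (Iic x) := measure_congr Iio_ae_eq_Iic
        rw [h3, h4, ← ofReal_dist, ENNReal.ofReal_sub _ (dist ν x).2.1, ENNReal.ofReal_one]
      rw [h2]
      have hx' : t < dist ν x := hx
      exact ENNReal.ofReal_le_ofReal (sub_le_sub_left (Subtype.coe_le_coe.2 hx'.le) 1)
    have h5 : ν (dist ν ⁻¹' Iic t) = 1 - ν (dist ν ⁻¹' Ioi t) := by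
      rw [← prob_compl_eq_one_sub (measurable_dist ν measurableSet_Ioi), ← preimage_compl,
        compl_Ioi]
    rw [h5]
    have h6 : ENNReal.ofReal t = 1 - ENNReal.ofReal (1 - t) := by
      rw [← ENNReal.ofReal_one, ← ENNReal.ofReal_sub _ (by linarith [t.2.2])]
      congr 1
      ring
    rw [h6]
    exact tsub_le_tsub_left h1 1

end Real

theorem exists_map_eq_volume {X : Type*} [MeasurableSpace X] [StandardBorelSpace X]
    (μ : Measure X) [IsProbabilityMeasure μ] [NullSingletonClass μ] :
    ∃ T : X → I, Measurable T ∧ μ.map T = volume := by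
  have hg := measurableEmbedding_sigmoid_comp_embeddingReal X
  set g : X → I := unitInterval.sigmoid ∘ embeddingReal X with hgdef
  have h1 : IsProbabilityMeasure (μ.map g) :=
    Measure.isProbabilityMeasure_map hg.measurable.aemeasurable
  have h2 : NullSingletonClass (μ.map g) := by
    refine ⟨fun y => ?_⟩
    rw [Measure.map_apply hg.measurable (measurableSet_singleton y)]
    exact (subsingleton_singleton.preimage hg.injective).measure_zero μ
  refine ⟨dist (μ.map g) ∘ g, (measurable_dist _).comp hg.measurable, ?_⟩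
  rw [← Measure.map_map (measurable_dist _) hg.measurable, map_dist]

end Pool.Agent.Helper82UN
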